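import Pool.Agent.Helper49.WR.Defs

/-!
# UA-F: the block words for abelian subgroups

* `block_value` (UA-F, `Final.lean`).  For a word `w` of length `l` and words `x_i` for `(h i)⁻¹`
  consider the letters `Λ = Fin n ⊕ Fin k`, `X (inl t) = [t]`, `X (inr i) = x i`, the pattern
  `pat w i = inl w[i]` for `i < l` and `inr (i - l)` for `l ≤ i < l + k`, and the exponents
  `exps l m i = 1` for `i < l`, `m (i - l)` for `l ≤ i < l + k`, `0` otherwise.  The value of the
  block word is `value of w * ∏ (h i)^(-m i)` (in this order `i = 0, 1, …`).
-/

set_option autoImplicit false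

namespace Pool.Helper49.WR

/-- The letters: the generators and the elements `(h i)⁻¹`. -/
def lettX {n k : ℕ} (x : Fin k → List (Fin n)) : Fin n ⊕ Fin k → List (Fin n)
  | Sum.inl t => [t]
  | Sum.inr i => x i

/-- The pattern of the word `w x_0^{m 0} ⋯ x_{k-1}^{m (k-1)}` (`k > 0`). -/
def pat {n k : ℕ} (hk : 0 < k) (w : List (Fin n)) (i : ℕ) : Fin n ⊕ Fin k :=
  if h : i < w.length then Sum.inl (w[i]) else
    if h' : i - w.length < k then Sum.inr ⟨i - w.length, h'⟩ else Sum.inr ⟨0, hk⟩

/-- The exponents. -/
noncomputable def exps {k : ℕ} (l : ℕ) (m : Fin k → ℕ) : Vec :=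
  Finsupp.onFinset (Finset.range (l + k))
    (fun i => if i < l then 1 else if h : i - l < k then m ⟨i - l, h⟩ else 0) (by
      intro i hi
      rw [Finset.mem_range]
      by_contra hc
      apply hi
      rw [if_neg (by omega), dif_neg (by omega)])

private theorem map_bword61 {G : Type} [Group G] {T Λ : Type} (f : T → G) (X : Λ → List T)
    (ℓ : ℕ → Λ) (M : ℕ) (e : ℕ → ℕ) :
    ((bword X ℓ M e).map f).prod =
      ((List.range M).map fun i => (((X (ℓ i)).map f).prod) ^ e i).prod := by
  unfold bword
  induction M with
  | zero => simp
  | succ M ih =>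
    rw [List.range_succ, List.flatMap_append, List.map_append, List.prod_append, ih,
      List.map_append, List.prod_append]
    congr 1
    simp only [List.flatMap_cons, List.flatMap_nil, List.append_nil, List.map_cons, List.map_nil,
      List.prod_cons, List.prod_nil, mul_one]
    generalize e M = c
    induction c with
    | zero => simp
    | succ c ihc =>
      rw [List.replicate_succ, List.flatten_cons, List.map_append, List.prod_append, ihc, pow_succ']

theorem block_value {G : Type} [Group G] {n k : ℕ} (hk : 0 < k) (f : Fin n → G)
    (h : Fin k → G) (x : Fin k → List (Fin n)) (hx : ∀ i, ((x i).map f).prod = (h i)⁻¹)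
    (w : List (Fin n)) (m : Fin k → ℕ) :
    ((bword (lettX x) (pat hk w) (w.length + k) (exps w.length m)).map f).prod =
      (w.map f).prod * (List.ofFn fun i => ((h i)⁻¹) ^ m i).prod := by
  rw [map_bword61, List.range_add, List.map_append, List.prod_append, List.map_map]
  congr 1
  · congr 1
    apply List.ext_getElem
    · simp
    · intro i h1 h2
      have hi : i < w.length := by simpa using h1
      rw [List.getElem_map, List.getElem_range, List.getElem_map]
      unfold pat exps
      rw [dif_pos hi]
      simp [lettX, hi]
  · congr 1
    apply List.ext_getElem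
    · simp
    · intro i h1 h2
      have hi : i < k := by simpa using h1
      rw [List.getElem_map, List.getElem_range, List.getElem_ofFn]
      unfold pat exps
      simp [lettX, hi, hx]

end Pool.Helper49.WR
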