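import Pool.Agent.Helper49.UA.PosFunctional

/-!
# UA-E1: a common rational solution

`S` is a finite set of vectors in `ℕ^k`, `ν ∈ ℝ^k`, `ν ≥ 0`, `ν ≠ 0`.  There is `u ∈ ℕ^k`, `u ≠ 0`, with
`u_i = 0` whenever `ν_i = 0`, such that for every `P ⊆ S`: if `ν` is a nonnegative real
combination of `P` then `u` is a nonnegative integral combination of `P`.

Proof: for each of the finitely many `P ⊆ S` for which `ν = ∑_{v ∈ P} r v` with `r ≥ 0` exists,
choose such `r^P`.  Let `Z` be the set of all positive `r^P_v` (`P ⊆ S`, `v ∈ P`) and all positive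
`ν_i`; let `π` be the functional of `exists_pos_functional`.  Then `π ν_i = ∑_{v ∈ P} π(r^P_v) v_i`
for all these `P` (`π` is `ℚ`-linear, `(v i : ℝ) • `, `map_sum`, `map_smul` with rational/natural
scalars), with `π(r^P_v) ≥ 0` (`0` if `r^P_v = 0`) rational.  Let `D` be a common denominator of all
the `π(r^P_v)` and `π(ν_i)` (e.g. the product of the denominators over the finite set of all these
rationals); put `u_i = D π(ν_i)`, and use the coefficients `D π(r^P_v)`.  `u ≠ 0` since some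
`ν_i > 0`.
-/

set_option autoImplicit false

namespace Pool.Helper49.WR

theorem common_solution (k : ℕ) (S : Finset (Fin k → ℕ)) (ν : Fin k → ℝ) (hν : ∀ i, 0 ≤ ν i)
    (hν' : ν ≠ 0) :
    ∃ u : Fin k → ℕ, u ≠ 0 ∧ (∀ i, ν i = 0 → u i = 0) ∧ ∀ P : Finset (Fin k → ℕ), P ⊆ S →
      (∃ r : (Fin k → ℕ) → ℝ, (∀ v, 0 ≤ r v) ∧ ∀ i, ν i = ∑ v ∈ P, r v * (v i : ℝ)) →
      ∃ z : (Fin k → ℕ) → ℕ, u = ∑ v ∈ P, z v • v := by
  classical
  -- the chosen real coefficients
  let Ok : Finset (Fin k → ℕ) → Prop := fun P =>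
    ∃ r : (Fin k → ℕ) → ℝ, (∀ v, 0 ≤ r v) ∧ ∀ i, ν i = ∑ v ∈ P, r v * (v i : ℝ)
  let Rc : Finset (Fin k → ℕ) → (Fin k → ℕ) → ℝ := fun P => if h : Ok P then h.choose else 0
  have hRc0 : ∀ P v, 0 ≤ Rc P v := by
    intro P v
    by_cases h : Ok P
    · have : Rc P = h.choose := dif_pos h
      rw [this]
      exact h.choose_spec.1 v
    · have : Rc P = 0 := dif_neg h
      rw [this]
      exact le_rfl
  have hRc : ∀ P, Ok P → ∀ i, ν i = ∑ v ∈ P, Rc P v * (v i : ℝ) := by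
    intro P h i
    have h1 : Rc P = h.choose := dif_pos h
    rw [h1]
    exact h.choose_spec.2 i
  -- all the real numbers involved
  let Y : Finset ℝ := (Finset.univ.image ν) ∪ (S.powerset.biUnion fun P => S.image (Rc P))
  have hY0 : ∀ y ∈ Y, 0 ≤ y := by
    intro y hy
    rcases Finset.mem_union.1 hy with hy | hy
    · obtain ⟨i, _, rfl⟩ := Finset.mem_image.1 hy
      exact hν i
    · obtain ⟨P, _, hy⟩ := Finset.mem_biUnion.1 hy
      obtain ⟨v, _, rfl⟩ := Finset.mem_image.1 hy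
      exact hRc0 P v
  have hYν : ∀ i, ν i ∈ Y := fun i =>
    Finset.mem_union_left _ (Finset.mem_image_of_mem _ (Finset.mem_univ i))
  have hYR : ∀ P, P ⊆ S → ∀ v ∈ P, Rc P v ∈ Y := fun P hP v hv =>
    Finset.mem_union_right _ (Finset.mem_biUnion.2
      ⟨P, Finset.mem_powerset.2 hP, Finset.mem_image_of_mem _ (hP hv)⟩)
  obtain ⟨π, hπ⟩ := exists_pos_functional (Y.filter fun y => 0 < y)
    fun z hz => (Finset.mem_filter.1 hz).2
  have hπ0 : ∀ y ∈ Y, 0 ≤ π y := by
    intro y hy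
    rcases (hY0 y hy).eq_or_lt with h | h
    · rw [← h, map_zero]
    · exact (hπ y (Finset.mem_filter.2 ⟨hy, h⟩)).le
  -- a common denominator
  let Dn : ℕ := ∏ y ∈ Y, (π y).den
  have hDn : 0 < Dn := Finset.prod_pos fun y _ => (π y).den_pos
  have hex : ∀ y ∈ Y, ∃ n : ℕ, (n : ℚ) = Dn * π y := by
    intro y hy
    obtain ⟨m, hm⟩ : (π y).den ∣ Dn := Finset.dvd_prod_of_mem (fun y => (π y).den) hy
    refine ⟨m * (π y).num.toNat, ?_⟩
    have h1 : ((π y).num.toNat : ℤ) = (π y).num := Int.toNat_of_nonneg (Rat.num_nonneg.2 (hπ0 y hy))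
    have h2 : (((π y).num.toNat : ℕ) : ℚ) = ((π y).num : ℚ) := by exact_mod_cast h1
    have h3 : ((π y).den : ℚ) * π y = (π y).num := by
      rw [mul_comm]; exact Rat.mul_den_eq_num (π y)
    rw [hm]
    push_cast
    rw [h2, ← h3]
    ring
  let Nn : ℝ → ℕ := fun y => if h : ∃ n : ℕ, (n : ℚ) = Dn * π y then h.choose else 0
  have hNn : ∀ y ∈ Y, (Nn y : ℚ) = Dn * π y := by
    intro y hy
    have h := hex y hy
    have h1 : Nn y = h.choose := dif_pos h
    rw [h1]
    exact h.choose_spec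
  have hDq : (0 : ℚ) < Dn := by exact_mod_cast hDn
  refine ⟨fun i => Nn (ν i), ?_, ?_, ?_⟩
  · intro h0
    apply hν'
    funext i
    by_contra hi
    have h1 : 0 < ν i := lt_of_le_of_ne (hν i) (Ne.symm hi)
    have h2 := hπ (ν i) (Finset.mem_filter.2 ⟨hYν i, h1⟩)
    have h3 := hNn (ν i) (hYν i)
    have h4 : Nn (ν i) = 0 := congrFun h0 i
    rw [h4] at h3
    have h5 : 0 < (Dn : ℚ) * π (ν i) := mul_pos hDq h2
    rw [← h3] at h5
    simp at h5
  · intro i hi
    have h3 := hNn (ν i) (hYν i)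
    rw [hi, map_zero, mul_zero] at h3
    show Nn (ν i) = 0
    rw [hi]
    exact_mod_cast h3
  · intro P hP hr
    refine ⟨fun v => Nn (Rc P v), ?_⟩
    funext i
    have h1 := hRc P hr i
    have h2 : (Nn (ν i) : ℚ) = ∑ v ∈ P, (Nn (Rc P v) : ℚ) * (v i : ℚ) := by
      rw [hNn (ν i) (hYν i), h1, map_sum, Finset.mul_sum]
      refine Finset.sum_congr rfl fun v hv => ?_
      rw [hNn (Rc P v) (hYR P hP v hv)]
      have h3 : Rc P v * (v i : ℝ) = (v i) • Rc P v := by
        rw [nsmul_eq_mul, mul_comm]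
      rw [h3, map_nsmul, nsmul_eq_mul]
      ring
    rw [Finset.sum_apply]
    simp only [Pi.smul_apply, smul_eq_mul]
    exact_mod_cast h2

end Pool.Helper49.WR
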