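import Pool.Agent.Helper49.WR.Small
import Pool.Agent.Helper49.WR.IrrDecomp

/-!
# UA-B: the last coordinates of an irredundant derivation

`lastdeg l v = ∑_{i ≥ l} v_i`.  Let `hi ρ < H`, `l ≤ H`, `k = H - l`.  Call a type `σ` *last* if
`l ≤ lo σ`, *first* if `hi σ < l`, *mixed* if `lo σ < l ≤ hi σ`.

For an irredundant derivation `Irr G ρ U b` (it is a derivation, `Irr.der`; so by `Der.interval` all
types in `U` have their intervals in `[lo ρ, hi ρ]`, by `Der.supp` the weight is supported there):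
* `ρ` first: `lastdeg l b = 0`.
* `ρ` last: all types in `U` have `l ≤ lo σ ≤ hi σ < H`, so `|U| ≤ k * k * K` (`Graded.card`, sum over
  the pairs), and `lastdeg l b ≤ 2^|U|` by `Irr.bound` (with `len = lastdeg l`, a leaf has weight
  `0` or `single _ 1`).
* in general `lastdeg l b ≤ (1 + number of mixed types in U) * 2^(k*k*K)`, by induction: a leaf has
  `lastdeg ≤ 1`.  Node `ρ → σ ρ'` with `ρ` mixed: `m = hi σ = lo ρ'`.  If `m < l` then `σ` is
  first, `ρ'` has `hi ρ' = hi ρ ≥ l`, mixed: `lastdeg (v + w) = lastdeg w`.  If `m ≥ l` then `ρ'` is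
  last, `lastdeg w ≤ 2^(k*k*K)`, and `σ` is mixed.  As `ρ ∉ U ∪ W`, the number of mixed types
  in `insert ρ (U ∪ W)` is at least one more than that in the subtree.
* there are at most `l * k * K` mixed types with `hi < H` (pairs `a < l`, `l ≤ b < H`).
-/

set_option autoImplicit false

namespace Pool.Helper49.WR

/-- The sum of the coordinates from `l` on. -/
noncomputable def lastdeg (l : ℕ) : Vec →+ ℕ :=
  Finsupp.degree.comp (Finsupp.filterAddHom fun i => l ≤ i)

theorem lastdeg_single (l i c : ℕ) : lastdeg l (Finsupp.single i c) = if l ≤ i then c else 0 := by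
  show (Finsupp.filter (fun i => l ≤ i) (Finsupp.single i c)).degree = _
  by_cases h : l ≤ i
  · rw [Finsupp.filter_single_of_pos (fun i => l ≤ i) h, Finsupp.degree_single, if_pos h]
  · rw [Finsupp.filter_single_of_neg (fun i => l ≤ i) h, if_neg h, map_zero]

theorem lastdeg_le_degree (l : ℕ) (v : Vec) : lastdeg l v ≤ v.degree := by
  show (Finsupp.filter (fun i => l ≤ i) v).degree ≤ v.degree
  have h := Finsupp.filter_pos_add_filter_neg v (fun i => l ≤ i)
  have h1 : (Finsupp.filter (fun i => l ≤ i) v).degree + (Finsupp.filter (fun i => ¬ l ≤ i) v).degree = v.degree := by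
    rw [← map_add, h]
  omega

private theorem lastdeg_zero75 {l : ℕ} {v : Vec} (hv : ∀ i, l ≤ i → v i = 0) : lastdeg l v = 0 := by
  show (Finsupp.filter (fun i => l ≤ i) v).degree = 0
  have h : Finsupp.filter (fun i => l ≤ i) v = 0 := by
    ext i
    by_cases h : l ≤ i
    · rw [Finsupp.filter_apply_pos (fun i => l ≤ i) v h, hv i h]
      rfl
    · rw [Finsupp.filter_apply_neg (fun i => l ≤ i) v h]
      rfl
  rw [h, map_zero]

theorem lastdeg_eq_sum (l k : ℕ) (v : Vec) (hv : ∀ i, l + k ≤ i → v i = 0) :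
    lastdeg l v = ∑ i : Fin k, v (l + i) := by
  show (Finsupp.filter (fun i => l ≤ i) v).degree = _
  rw [Finsupp.degree_apply, Fin.sum_univ_eq_sum_range (fun i => v (l + i)) k]
  have h1 : ∑ i ∈ Finset.range k, v (l + i) = ∑ i ∈ Finset.Ico l (l + k), v i := by
    rw [Finset.sum_Ico_eq_sum_range, Nat.add_sub_cancel_left]
  rw [h1]
  symm
  rw [← Finset.sum_subset (s₁ := (Finsupp.filter (fun i => l ≤ i) v).support) (s₂ := Finset.Ico l (l + k))
    (f := fun i => v i)]
  · apply Finset.sum_congr rfl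
    intro i hi
    have h2 : l ≤ i := by
      rw [Finsupp.support_filter, Finset.mem_filter] at hi
      exact hi.2
    rw [Finsupp.filter_apply_pos (fun i => l ≤ i) v h2]
  · intro i hi
    rw [Finsupp.support_filter, Finset.mem_filter, Finsupp.mem_support_iff] at hi
    rw [Finset.mem_Ico]
    refine ⟨hi.2, ?_⟩
    by_contra h3
    exact hi.1 (hv i (not_lt.1 h3))
  · intro i hi hi'
    rw [Finset.mem_Ico] at hi
    by_contra h3
    apply hi'
    rw [Finsupp.support_filter, Finset.mem_filter, Finsupp.mem_support_iff]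
    exact ⟨h3, hi.1⟩

variable {J : Type} [Fintype J] [DecidableEq J] {G : WG J Vec} {lo hi : J → ℕ} {K : ℕ}

private theorem count75 (hG : Graded G lo hi K) (A B : Finset ℕ) (U : Finset J)
    (hU : ∀ σ ∈ U, lo σ ∈ A ∧ hi σ ∈ B) : U.card ≤ A.card * B.card * K := by
  have h1 := Finset.card_le_mul_card_image (f := fun σ => (lo σ, hi σ)) U K (by
    intro x _
    refine le_trans (Finset.card_le_card ?_) (hG.card x.1 x.2)
    intro σ hσ
    rw [Finset.mem_filter] at hσ ⊢
    refine ⟨Finset.mem_univ _, ?_⟩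
    have := hσ.2
    exact ⟨congrArg Prod.fst this, congrArg Prod.snd this⟩)
  have h2 : (U.image fun σ => (lo σ, hi σ)).card ≤ A.card * B.card := by
    rw [← Finset.card_product]
    refine Finset.card_le_card ?_
    intro x hx
    rw [Finset.mem_image] at hx
    obtain ⟨σ, hσ, rfl⟩ := hx
    exact Finset.mem_product.2 (hU σ hσ)
  calc U.card ≤ K * (U.image fun σ => (lo σ, hi σ)).card := h1
    _ ≤ K * (A.card * B.card) := Nat.mul_le_mul_left _ h2
    _ = A.card * B.card * K := by ring

private theorem last75 (hG : Graded G lo hi K) {l k : ℕ} {ρ : J} {U : Finset J} {b : Vec}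
    (h : Irr G ρ U b) (hH : hi ρ < l + k) (hl : l ≤ lo ρ) : lastdeg l b ≤ 2 ^ (k * k * K) := by
  have h1 : lastdeg l b ≤ 2 ^ U.card := by
    refine Irr.bound (lastdeg l) ?_ h
    intro τ v hv
    exact (lastdeg_le_degree l v).trans (hG.leaf_degree hv)
  obtain ⟨n, hn⟩ := h.der
  have h2 : U.card ≤ k * k * K := by
    have := count75 hG (Finset.Ico l (l + k)) (Finset.Ico l (l + k)) U (by
      intro σ hσ
      have h3 := (hn.interval hG).2 σ hσ
      rw [Finset.mem_Ico, Finset.mem_Ico]
      omega)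
    rwa [Nat.card_Ico, Nat.add_sub_cancel_left] at this
  exact h1.trans (Nat.pow_le_pow_right (by norm_num) h2)

private theorem first75 (hG : Graded G lo hi K) {l : ℕ} {ρ : J} {U : Finset J} {b : Vec}
    (h : Irr G ρ U b) (hl : hi ρ < l) : lastdeg l b = 0 := by
  obtain ⟨n, hn⟩ := h.der
  apply lastdeg_zero75
  intro i hi'
  by_contra h1
  have := hn.supp hG i h1
  omega

/-- the mixed types -/
private def mix75 (lo hi : J → ℕ) (l : ℕ) (U : Finset J) : Finset J :=
  U.filter fun σ => lo σ < l ∧ l ≤ hi σ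

omit [Fintype J] [DecidableEq J] in
private theorem mix_mono75 {l : ℕ} {U W : Finset J} (h : U ⊆ W) :
    (mix75 lo hi l U).card ≤ (mix75 lo hi l W).card :=
  Finset.card_le_card (Finset.filter_subset_filter _ h)

private theorem mixed75 (hG : Graded G lo hi K) {l k : ℕ} {ρ : J} {U : Finset J} {b : Vec}
    (h : Irr G ρ U b) : hi ρ < l + k →
    lastdeg l b ≤ (1 + (mix75 lo hi l U).card) * 2 ^ (k * k * K) := by
  have hone : 1 ≤ 2 ^ (k * k * K) := Nat.one_le_two_pow
  induction h with
  | @leaf τ v h =>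
    intro _
    have h1 : lastdeg l v ≤ 1 := (lastdeg_le_degree l v).trans (hG.leaf_degree h)
    calc lastdeg l v ≤ 1 * 1 := h1
      _ ≤ (1 + (mix75 lo hi l {τ}).card) * 2 ^ (k * k * K) := Nat.mul_le_mul (by omega) hone
  | @bin τ σ ρ U W v w h h₁ h₂ hn ih₁ ih₂ =>
    intro hH
    have hI := Irr.bin h h₁ h₂ hn
    have e1 := hG.bin_lo _ _ _ h
    have e2 := hG.bin_mid _ _ _ h
    have e3 := hG.bin_hi _ _ _ h
    obtain ⟨n1, hn1⟩ := h₁.der
    obtain ⟨n2, hn2⟩ := h₂.der
    have i1 := (hn1.interval hG).1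
    have i2 := (hn2.interval hG).1
    by_cases c1 : hi τ < l
    · rw [first75 hG hI c1]
      exact Nat.zero_le _
    by_cases c2 : l ≤ lo τ
    · calc lastdeg l (v + w) ≤ 1 * 2 ^ (k * k * K) := by rw [one_mul]; exact last75 hG hI hH c2
        _ ≤ _ := Nat.mul_le_mul (by omega) le_rfl
    rw [map_add]
    by_cases c3 : hi σ < l
    · rw [first75 hG h₁ c3, zero_add]
      refine (ih₂ (by omega)).trans (Nat.mul_le_mul ?_ le_rfl)
      have : (mix75 lo hi l W).card ≤ (mix75 lo hi l (insert τ (U ∪ W))).card := mix_mono75 (by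
        intro x hx; simp [hx])
      omega
    · have a1 := last75 (k := k) (l := l) hG h₂ (by omega) (by omega)
      have a2 := ih₁ (by omega)
      have a3 : (mix75 lo hi l U).card + 1 ≤ (mix75 lo hi l (insert τ (U ∪ W))).card := by
        unfold mix75
        rw [Finset.filter_insert, if_pos ⟨by omega, by omega⟩, Finset.card_insert_of_notMem]
        · have := mix_mono75 (lo := lo) (hi := hi) (l := l) (Finset.subset_union_left : U ⊆ U ∪ W)
          unfold mix75 at this
          omega
        · intro h4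
          exact hn (Finset.mem_filter.1 h4).1
      calc lastdeg l v + lastdeg l w ≤ (1 + (mix75 lo hi l U).card) * 2 ^ (k * k * K) + 2 ^ (k * k * K) :=
            Nat.add_le_add a2 a1
        _ = (1 + ((mix75 lo hi l U).card + 1)) * 2 ^ (k * k * K) := by ring
        _ ≤ _ := Nat.mul_le_mul (by omega) le_rfl

theorem Irr.last_bound (hG : Graded G lo hi K) {l k : ℕ} {ρ : J} {U : Finset J} {b : Vec}
    (h : Irr G ρ U b) (hH : hi ρ < l + k) :
    lastdeg l b ≤ (1 + l * k * K) * 2 ^ (k * k * K) := by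
  refine (mixed75 hG h hH).trans (Nat.mul_le_mul (Nat.add_le_add_left ?_ 1) le_rfl)
  obtain ⟨n, hn⟩ := h.der
  have := count75 hG (Finset.range l) (Finset.Ico l (l + k)) (mix75 lo hi l U) (by
    intro σ hσ
    have h3 := (hn.interval hG).2 σ (Finset.mem_filter.1 hσ).1
    have h4 := (Finset.mem_filter.1 hσ).2
    rw [Finset.mem_range, Finset.mem_Ico]
    omega)
  rwa [Nat.card_Ico, Nat.add_sub_cancel_left, Finset.card_range] at this

end Pool.Helper49.WR
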