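import Pool.Agent.Helper49.UA.CommonSol

/-!
# UA-E2: the limit argument

`S` is a finite set of vectors in `ℕ^k`.

* `no_gap`.  Let `N_j = ∑_i a_j i > j (l_j + 1)`, so `N_j → ∞` and `(l_j + 1) / N_j → 0`.  The
  vectors `a_j / N_j` lie in the compact cube `[0,1]^k`; pass to a subsequence with
  `a_j / N_j → ν`; `ν ≥ 0`, `∑ ν_i = 1`.  Let `u` be as in `common_solution`.  For large `j` in the
  subsequence `a_j ≥ u` (if `u_i > 0` then `ν_i > 0`, so `a_j i → ∞`); put `n_j = a_j - u ≠ a_j`, so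
  `n_j ∈ Lg j`, which gives `b_j`, `P_j`, `κ_j`.  We may assume `0 ∉ P_j` (remove it).  Pass to a
  subsequence on which `P_j = P` is constant (finitely many subsets of `S`).  For `v ∈ P`,
  `v ≠ 0` gives `κ_j v ≤ ∑_i (n_j) i ≤ N_j`, so `κ_j v / N_j ∈ [0,1]`; pass to a subsequence with
  `κ_j v / N_j → r_v` for all `v ∈ P`.  Dividing `n_j = b_j + ∑ κ_j v v` by `N_j` and passing to the
  limit: `n_j / N_j → ν` (`u` is fixed), `b_j / N_j → 0`, so `ν = ∑_{v ∈ P} r_v v`, `r_v ≥ 0`.  So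
  `u = ∑_{v ∈ P} z_v v` with `z_v ∈ ℕ`, and `a_j = n_j + ∑_{v ∈ P} z_v v ∈ Lg j`, contradicting
  `h3`.
-/

set_option autoImplicit false

namespace Pool.Helper49.WR

open Filter Topology in
theorem no_gap (k : ℕ) (S : Finset (Fin k → ℕ)) (C : ℕ) (l : ℕ → ℕ) (a : ℕ → Fin k → ℕ)
    (ha : ∀ j, j * (l j + 1) < ∑ i, a j i) (Lg : ℕ → Set (Fin k → ℕ))
    (h1 : ∀ j n, n ≠ a j → n ∈ Lg j)
    (h2 : ∀ j, ∀ n ∈ Lg j, ∃ (b : Fin k → ℕ) (P : Finset (Fin k → ℕ)) (κ : (Fin k → ℕ) → ℕ),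
      P ⊆ S ∧ n = b + ∑ v ∈ P, κ v • v ∧ ∑ i, b i ≤ C * (l j + 1) ∧
      ∀ z : (Fin k → ℕ) → ℕ, n + ∑ v ∈ P, z v • v ∈ Lg j)
    (h3 : ∀ j, a j ∉ Lg j) : False := by
  classical
  obtain ⟨N, hN⟩ : ∃ N : ℕ → ℕ, ∀ j, N j = ∑ i, a j i := ⟨_, fun _ => rfl⟩
  have hNl : ∀ j, j * (l j + 1) < N j := fun j => by rw [hN]; exact ha j
  have hNj : ∀ j, j < N j := fun j => lt_of_le_of_lt (Nat.le_mul_of_pos_right _ (by omega)) (hNl j)
  have hN0 : ∀ j, (0 : ℝ) < N j := fun j => by exact_mod_cast Nat.zero_lt_of_lt (hNj j)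
  let F : Ultrafilter ℕ := hyperfilter ℕ
  have hF : (F : Filter ℕ) ≤ atTop := Nat.hyperfilter_le_atTop
  have hNt : Tendsto (fun j => (N j : ℝ)) F atTop :=
    (tendsto_natCast_atTop_atTop.comp (tendsto_atTop_mono (fun j => (hNj j).le) tendsto_id)).mono_left hF
  have hjt : Tendsto (fun j : ℕ => (j : ℝ)) F atTop := tendsto_natCast_atTop_atTop.mono_left hF
  have hlim : ∀ f : ℕ → ℝ, (∀ᶠ j in (F : Filter ℕ), f j ∈ Set.Icc (0 : ℝ) 1) →
      ∃ c, 0 ≤ c ∧ Tendsto f F (𝓝 c) := by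
    intro f hf
    obtain ⟨c, hc, hle⟩ := isCompact_Icc.ultrafilter_le_nhds' (F.map f) hf
    exact ⟨c, hc.1, hle⟩
  have haN : ∀ j i, a j i ≤ N j := fun j i => by
    rw [hN]; exact Finset.single_le_sum (fun _ _ => Nat.zero_le _) (Finset.mem_univ i)
  have hx : ∀ i, ∃ c, 0 ≤ c ∧ Tendsto (fun j => (a j i : ℝ) / N j) F (𝓝 c) := fun i =>
    hlim _ (Eventually.of_forall fun j => ⟨by positivity,
      div_le_one_of_le₀ (by exact_mod_cast haN j i) (hN0 j).le⟩)
  choose ν hν0 hν using hx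
  have hsum : ∑ i, ν i = 1 := by
    have e1 : Tendsto (fun j => ∑ i, (a j i : ℝ) / N j) F (𝓝 (∑ i, ν i)) :=
      tendsto_finsetSum _ fun i _ => hν i
    have e2 : (fun j => ∑ i, (a j i : ℝ) / N j) = fun _ => (1 : ℝ) := by
      funext j
      rw [← Finset.sum_div, ← Nat.cast_sum, ← hN]
      exact div_self (hN0 j).ne'
    rw [e2] at e1
    exact tendsto_nhds_unique e1 tendsto_const_nhds
  have hνne : ν ≠ 0 := by
    intro h
    rw [h] at hsum
    simp at hsum
  obtain ⟨u, hu0, huν, hu⟩ := common_solution k S ν hν0 hνne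
  -- `u ≤ a j` along the filter
  have hle : ∀ᶠ j in (F : Filter ℕ), ∀ i, u i ≤ a j i := by
    rw [eventually_all]
    intro i
    by_cases hi : ν i = 0
    · exact Eventually.of_forall fun j => by rw [huν i hi]; exact Nat.zero_le _
    · have hpos : 0 < ν i := lt_of_le_of_ne (hν0 i) (Ne.symm hi)
      have e1 : ∀ᶠ j in (F : Filter ℕ), ν i / 2 < (a j i : ℝ) / N j :=
        (hν i).eventually (lt_mem_nhds (by linarith))
      have e2 : ∀ᶠ j in (F : Filter ℕ), (u i : ℝ) / (ν i / 2) ≤ N j :=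
        hNt.eventually (eventually_ge_atTop _)
      filter_upwards [e1, e2] with j h4 h5
      rw [div_le_iff₀ (by linarith)] at h5
      rw [lt_div_iff₀ (hN0 j)] at h4
      have h6 : (u i : ℝ) < a j i := by nlinarith
      exact_mod_cast h6.le
  -- the data
  have hdat : ∀ j, ∃ (b : Fin k → ℕ) (P : Finset (Fin k → ℕ)) (κ : (Fin k → ℕ) → ℕ),
      (∀ i, u i ≤ a j i) → P ⊆ S ∧ a j = u + (b + ∑ v ∈ P, κ v • v) ∧ ∑ i, b i ≤ C * (l j + 1) ∧
      (∀ v ∈ P, κ v ≤ N j) ∧ ∀ z : (Fin k → ℕ) → ℕ, a j = u + (b + ∑ v ∈ P, κ v • v) →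
        (b + ∑ v ∈ P, κ v • v) + ∑ v ∈ P, z v • v ∈ Lg j := by
    intro j
    by_cases hj : ∀ i, u i ≤ a j i
    swap
    · exact ⟨0, ∅, 0, fun h => absurd h hj⟩
    have hn : a j = u + (a j - u) := by
      funext i
      simp only [Pi.add_apply, Pi.sub_apply]
      have := hj i
      omega
    have hne : a j - u ≠ a j := by
      intro h
      apply hu0
      funext i
      have h4 := congrFun h i
      simp only [Pi.sub_apply] at h4
      have := hj i
      simp only [Pi.zero_apply]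
      omega
    obtain ⟨b, P, κ, hP, hnb, hb, hz⟩ := h2 j _ (h1 j _ hne)
    have hκ : ∑ v ∈ P, (if v = 0 then 0 else κ v) • v = ∑ v ∈ P, κ v • v := by
      refine Finset.sum_congr rfl fun v _ => ?_
      split_ifs with hv
      · rw [hv, smul_zero, smul_zero]
      · rfl
    refine ⟨b, P, fun v => if v = 0 then 0 else κ v, fun _ => ⟨hP, ?_, hb, ?_, ?_⟩⟩
    · rw [hκ, ← hnb]
      exact hn
    · intro v hv
      show (if v = 0 then 0 else κ v) ≤ N j
      by_cases hv0 : v = 0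
      · rw [if_pos hv0]
        exact Nat.zero_le _
      rw [if_neg hv0]
      obtain ⟨i, hi⟩ : ∃ i, v i ≠ 0 := by
        by_contra hcon
        push Not at hcon
        exact hv0 (funext hcon)
      have h4 : κ v * v i ≤ (∑ v ∈ P, κ v • v) i := by
        rw [Finset.sum_apply]
        exact Finset.single_le_sum (f := fun w : Fin k → ℕ => (κ w • w) i) (fun _ _ => Nat.zero_le _) hv
      have h5 : (a j - u) i = b i + (∑ v ∈ P, κ v • v) i := by rw [hnb]; rfl
      have h6 : (a j - u) i ≤ a j i := by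
        simp only [Pi.sub_apply]
        omega
      have h7 := haN j i
      have h8 : κ v ≤ κ v * v i := Nat.le_mul_of_pos_right _ (by omega)
      omega
    · intro z _
      rw [hκ, ← hnb]
      exact hz z
  choose b P κ hd using hdat
  -- the constant set
  have hP : ∀ᶠ j in (F : Filter ℕ), P j ∈ S.powerset := by
    filter_upwards [hle] with j hj
    exact Finset.mem_powerset.2 (hd j hj).1
  obtain ⟨P₀, hP₀S, hP₀⟩ : ∃ P₀ ∈ S.powerset, ∀ᶠ j in (F : Filter ℕ), P j = P₀ := by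
    have e1 : (⋃ Q ∈ (S.powerset : Set (Finset (Fin k → ℕ))), {j | P j = Q}) ∈ F := by
      refine mem_of_superset hP fun j hj => ?_
      exact Set.mem_biUnion (Finset.mem_coe.2 hj) rfl
    obtain ⟨Q, hQ, hQ'⟩ := (Ultrafilter.finite_biUnion_mem_iff (Finset.finite_toSet _)).1 e1
    exact ⟨Q, Finset.mem_coe.1 hQ, hQ'⟩
  -- the limits of the coefficients
  have hr : ∀ v : Fin k → ℕ, ∃ c : ℝ, 0 ≤ c ∧
      (v ∈ P₀ → Tendsto (fun j => (κ j v : ℝ) / N j) F (𝓝 c)) := by
    intro v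
    by_cases hv : v ∈ P₀
    · obtain ⟨c, hc, hc'⟩ := hlim (fun j => (κ j v : ℝ) / N j) (by
        filter_upwards [hle, hP₀] with j hj hjP
        refine ⟨by positivity, div_le_one_of_le₀ ?_ (hN0 j).le⟩
        exact_mod_cast (hd j hj).2.2.2.1 v (by rw [hjP]; exact hv))
      exact ⟨c, hc, fun _ => hc'⟩
    · exact ⟨0, le_rfl, fun h => absurd h hv⟩
  choose r hr0 hr using hr
  have hlimit : ∀ i, ν i = ∑ v ∈ P₀, r v * (v i : ℝ) := by
    intro i
    have e1 : Tendsto (fun j => (u i : ℝ) / N j) F (𝓝 0) := tendsto_const_nhds.div_atTop hNt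
    have e2 : Tendsto (fun j => (b j i : ℝ) / N j) F (𝓝 0) := by
      have e3 : Tendsto (fun j : ℕ => (C : ℝ) / j) F (𝓝 0) := tendsto_const_nhds.div_atTop hjt
      refine tendsto_of_tendsto_of_tendsto_of_le_of_le' tendsto_const_nhds e3 ?_ ?_
      · exact Eventually.of_forall fun j => by positivity
      · filter_upwards [hle, hjt.eventually (eventually_ge_atTop 1)] with j hj hj1
        have h4 : b j i ≤ C * (l j + 1) :=
          (Finset.single_le_sum (f := b j) (fun _ _ => Nat.zero_le _) (Finset.mem_univ i)).trans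
            (hd j hj).2.2.1
        have h5 : b j i * j ≤ C * N j := by
          calc b j i * j ≤ C * (l j + 1) * j := Nat.mul_le_mul_right _ h4
            _ = C * (j * (l j + 1)) := by ring
            _ ≤ C * N j := Nat.mul_le_mul_left _ (hNl j).le
        have hj0 : (0 : ℝ) < j := by linarith
        rw [div_le_div_iff₀ (hN0 j) hj0]
        exact_mod_cast h5
    have e4 : Tendsto (fun j => ∑ v ∈ P₀, (κ j v : ℝ) / N j * (v i : ℝ)) F
        (𝓝 (∑ v ∈ P₀, r v * (v i : ℝ))) :=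
      tendsto_finsetSum _ fun v hv => (hr v hv).mul_const _
    have e5 := (e1.add e2).add e4
    rw [zero_add, zero_add] at e5
    refine tendsto_nhds_unique (hν i) (e5.congr' ?_)
    filter_upwards [hle, hP₀] with j hj hjP
    have h4 : a j i = u i + (b j i + ∑ v ∈ P₀, κ j v * v i) := by
      have h5 := congrFun (hd j hj).2.1 i
      rw [hjP] at h5
      simpa [Finset.sum_apply] using h5
    rw [h4]
    push_cast
    rw [add_div, add_div, Finset.sum_div, add_assoc]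
    congr 2
    refine Finset.sum_congr rfl fun v _ => ?_
    ring
  obtain ⟨z, hz⟩ := hu P₀ (Finset.mem_powerset.1 hP₀S) ⟨r, hr0, hlimit⟩
  obtain ⟨j, hj, hjP⟩ := (hle.and hP₀).exists
  obtain ⟨_, h4, _, _, h5⟩ := hd j hj
  apply h3 j
  have h6 := h5 z h4
  rw [hjP] at h4 h6
  rw [← hz, add_comm, ← h4] at h6
  exact h6

end Pool.Helper49.WR
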