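import Pool.Agent.Helper49.WR.Small
import Pool.Agent.Helper49.WR.IrrDecomp

/-!
# UA-A: pumping up with small loops

Let `h : Der G ρ U e n`.
1. `irr_decomp` gives `U' ⊆ U`, `Irr G ρ U' b`, `e = b + s`, `s ∈ closure (loops G U n)`.
   `loops G U n ⊆ allLoops G U`, so `s ∈ closure (smallLoops G U (K * 2^K))` by `loops_small`.
2. Hence `s = ∑_{x ∈ T} m_x • x` for a finite set `T ⊆ smallLoops`.
3. Every `x ∈ T` is the weight of a loop at some `σ_x ∈ U`, so by `Ctx.shape` it is `vec p_x` for a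
   link `p_x = (lo σ_x, hi σ_x, c, d)`; its degree `c + d` is at most `K * 2^K`.  Take
   `P = T.image p`, `k q = m (vec q)`; `x ↦ p_x` is injective on `T` as `vec (p_x) = x`.
4. Interval bounds: `Der.interval` for `h`.
5. For all `z`: `Der G ρ U (e + ∑_{q ∈ P'} z q • vec q)` for all `P' ⊆ P` by induction on `P'`, and
   inside by induction on the multiplicity: `Der.insertCtx` adds the weight of a loop
   `Ctx σ σ Y W p m` with `σ ∈ U`, `W ⊆ U` without changing the used set (`U ∪ W = U`).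
(The proof of `abstractPL` in `Pool/Agent/Helper49/WR/AbsPL.lean` is the same apart from step 1;
copy it.)
-/

set_option autoImplicit false

namespace Pool.Helper49.WR

variable {J : Type} [Fintype J] [DecidableEq J] {G : WG J Vec} {lo hi : J → ℕ} {K : ℕ}

theorem abstractUp (hG : Graded G lo hi K) {ρ : J} {U : Finset J} {e : Vec} {n : ℕ}
    (h : Der G ρ U e n) :
    ∃ (U' : Finset J) (b : Vec) (P : Finset Link) (k : Link → ℕ),
      Irr G ρ U' b ∧
      (∀ p ∈ P, lo ρ ≤ p.1 ∧ p.1 ≤ p.2.1 ∧ p.2.1 ≤ hi ρ ∧ p.2.2.1 + p.2.2.2 ≤ K * 2 ^ K) ∧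
      e = lin b P k ∧
      ∀ z : Link → ℕ, ∃ U'' n', Der G ρ U'' (e + ∑ p ∈ P, z p • Link.vec p) n' := by
  classical
  obtain ⟨U', b, s, hU', hirr, he, hs⟩ := irr_decomp h
  have hs0 : s ∈ AddSubmonoid.closure (allLoops G U) := by
    refine AddSubmonoid.closure_mono ?_ hs
    rintro p ⟨σ, hσ, Y, W, m, hc, hW, _⟩
    exact ⟨σ, hσ, Y, W, m, hc, hW⟩
  have hs' := loops_small hG U hs0
  -- good links
  have hlink : ∀ x ∈ smallLoops G U (K * 2 ^ K), ∃ q : Link, Link.vec q = x ∧
      ∃ σ ∈ U, q.1 = lo σ ∧ q.2.1 = hi σ ∧ q.2.2.1 + q.2.2.2 ≤ K * 2 ^ K ∧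
        ∃ Y W m, Ctx G σ σ Y W (Link.vec q) m ∧ W ⊆ U := by
    rintro x ⟨σ, hσ, Y, W, m, hc, hW, hd⟩
    obtain ⟨c, d, hcd⟩ := hc.shape hG rfl rfl
    have hx : Link.vec (lo σ, hi σ, c, d) = x := by
      rw [hcd]
      rfl
    refine ⟨(lo σ, hi σ, c, d), hx, σ, hσ, rfl, rfl, ?_, Y, W, m, ?_, hW⟩
    · rw [hcd, map_add, Finsupp.degree_single, Finsupp.degree_single] at hd
      exact hd
    · rw [hx]
      exact hc
  have hdec : ∀ s' ∈ AddSubmonoid.closure (smallLoops G U (K * 2 ^ K)),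
      ∃ (P : Finset Link) (k : Link → ℕ), (∀ q ∈ P, ∃ σ ∈ U, q.1 = lo σ ∧ q.2.1 = hi σ ∧
        q.2.2.1 + q.2.2.2 ≤ K * 2 ^ K ∧ ∃ Y W m, Ctx G σ σ Y W (Link.vec q) m ∧ W ⊆ U) ∧
        s' = ∑ p ∈ P, k p • Link.vec p := by
    intro s' hs'
    induction hs' using AddSubmonoid.closure_induction with
    | mem x hx =>
      obtain ⟨q, hq, hq'⟩ := hlink x hx
      refine ⟨{q}, fun _ => 1, ?_, ?_⟩
      · intro r hr
        rw [Finset.mem_singleton] at hr
        rw [hr]
        exact hq'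
      · rw [Finset.sum_singleton, one_smul, hq]
    | zero => exact ⟨∅, fun _ => 0, by simp, by simp⟩
    | add x y _ _ hx hy =>
      obtain ⟨P₁, k₁, hP₁, hx'⟩ := hx
      obtain ⟨P₂, k₂, hP₂, hy'⟩ := hy
      refine ⟨P₁ ∪ P₂, fun p => (if p ∈ P₁ then k₁ p else 0) + (if p ∈ P₂ then k₂ p else 0), ?_, ?_⟩
      · intro q hq
        rcases Finset.mem_union.1 hq with hq | hq
        · exact hP₁ q hq
        · exact hP₂ q hq
      · simp only [add_smul, ite_smul, zero_smul]
        rw [Finset.sum_add_distrib, Finset.sum_ite_mem, Finset.sum_ite_mem,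
          Finset.union_inter_cancel_left, Finset.union_inter_cancel_right, ← hx', ← hy']
  obtain ⟨P, k, hP, hsum⟩ := hdec s hs'
  have hint := (h.interval hG).2
  refine ⟨U', b, P, k, hirr, ?_, ?_, ?_⟩
  · intro q hq
    obtain ⟨σ, hσ, h1, h2, h3, _⟩ := hP q hq
    have := hint σ hσ
    rw [h1, h2]
    exact ⟨this.1, this.2.1, this.2.2, h3⟩
  · rw [he, lin, hsum]
  · intro k'
    have hins : ∀ P' : Finset Link, P' ⊆ P →
        ∃ n'', Der G ρ U (e + ∑ p ∈ P', k' p • Link.vec p) n'' := by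
      intro P'
      induction P' using Finset.induction_on with
      | empty =>
        intro _
        exact ⟨n, by simpa using h⟩
      | insert q P' hq ih =>
        intro hsub
        obtain ⟨n'', hn''⟩ := ih ((Finset.subset_insert q P').trans hsub)
        obtain ⟨σ, hσ, _, _, _, Y, W, m, hc, hW⟩ := hP q (hsub (Finset.mem_insert_self q P'))
        have hmul : ∀ t : ℕ, ∃ n₂, Der G ρ U
            (e + ∑ p ∈ P', k' p • Link.vec p + t • Link.vec q) n₂ := by
          intro t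
          induction t with
          | zero => exact ⟨n'', by simpa using hn''⟩
          | succ t iht =>
            obtain ⟨n₂, hn₂⟩ := iht
            refine ⟨n₂ + m, ?_⟩
            have h1 := hn₂.insertCtx hσ hc
            rw [Finset.union_eq_left.2 hW] at h1
            rw [add_smul, one_smul, ← add_assoc]
            exact h1
        obtain ⟨n₂, hn₂⟩ := hmul (k' q)
        refine ⟨n₂, ?_⟩
        rw [Finset.sum_insert hq, add_comm (k' q • Link.vec q), ← add_assoc]
        exact hn₂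
    obtain ⟨n'', hn''⟩ := hins P le_rfl
    exact ⟨U, n'', hn''⟩

end Pool.Helper49.WR
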