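import Pool.Agent.Helper49.WR.CFGraded
import Pool.Agent.Helper49.UA.Up
import Pool.Agent.Helper49.UA.LastBound

/-!
# UA-C: pumping up block words, with a linear bound for the rest

As in `Pool/Agent/Helper49/WR/Parikh.lean` (copy the set-up): `S` = the finite set of the suffixes
of the words `X l`, `F` from `exists_forms`, `K = |S| |F| |S|`, `C = K 2^K`, and for `k`
`C' = (1 + k K) 2^(k k K)`; note `1 + l k K ≤ (1 + k K) (l + 1)`.

Let `M = l + k`.  If `M = 0` then `e = 0`; take `b = 0`, `P = ∅`.  Otherwise a derivation of type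
`((0, []), [initial], (b₀, []))` and weight `e` (`Yields.of_derives`, `Run.exists_run`,
`cfWG_complete`); `abstractUp` gives `b`, `P`, `κ`; `Irr.last_bound` the bound; and every
derivation of weight `e' = e + ∑ z p • vec p` gives by `cfWG_sound` and `Run.word` that
`bword X ℓ M e'` is in the language.
-/

set_option autoImplicit false

namespace Pool.Helper49.WR

open Pool.Agent.Helper1.FIM (Yields)

private theorem finite_suffix38 {T Λ : Type} [Finite Λ] (X : Λ → List T) :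
    {s : List T | ∃ l, s <:+ X l}.Finite := by
  have h1 : {s : List T | ∃ l, s <:+ X l} = ⋃ l, {s | s ∈ (X l).tails} := by
    ext s
    simp [List.mem_tails]
  rw [h1]
  exact Set.finite_iUnion fun l => List.finite_toSet _

open Classical in
private theorem parikh_pos38 {T Λ : Type} (g : ContextFreeGrammar.{0} T) (X : Λ → List T)
    (hX : ∀ l, X l ≠ []) (S : Finset (List T)) (hS : ∀ l s, s <:+ X l → s ∈ S)
    (F : Finset (List (Symbol T g.NT))) (hF : FormsOK g F) (l k : ℕ) (hM : 0 < l + k) (ℓ : ℕ → Λ)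
    (e : Vec) (he : ∀ i, l + k ≤ i → e i = 0) (hw : bword X ℓ (l + k) e ∈ g.language) :
    ∃ (b : Vec) (P : Finset Link) (κ : Link → ℕ),
      (∀ p ∈ P, p.1 ≤ p.2.1 ∧ p.2.1 < l + k ∧
        p.2.2.1 + p.2.2.2 ≤ S.card * F.card * S.card * 2 ^ (S.card * F.card * S.card)) ∧
      e = lin b P κ ∧
      lastdeg l b ≤ (1 + l * k * (S.card * F.card * S.card)) *
        2 ^ (k * k * (S.card * F.card * S.card)) ∧
      ∀ z : Link → ℕ, bword X ℓ (l + k) (e + ∑ p ∈ P, z p • Link.vec p : Vec) ∈ g.language := by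
  have hl0 : Λ := ℓ 0
  have hnil : ([] : List T) ∈ S := hS hl0 [] (List.nil_suffix)
  have hy : Yields g [Symbol.nonterminal g.initial] (bword X ℓ (l + k) e) :=
    Yields.of_derives ((ContextFreeGrammar.mem_language_iff g _).1 hw)
  obtain ⟨b', hb', hrun⟩ := Run.exists_run (X := X) (ℓ := ℓ) hX hM e he
  have hq : ((0, []) : ℕ × List T) ∈ Finset.range (l + k) ×ˢ S :=
    Finset.mem_product.2 ⟨Finset.mem_range.2 hM, hnil⟩
  have hq' : ((b', []) : ℕ × List T) ∈ Finset.range (l + k) ×ˢ S :=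
    Finset.mem_product.2 ⟨Finset.mem_range.2 hb', hnil⟩
  obtain ⟨U, n, hder⟩ := cfWG_complete (ℓ := ℓ) (M := l + k) hS hF hy hF.init hrun hq
    ⟨hl0, List.nil_suffix⟩ hq'
  have hG := cfWG_graded g X ℓ (l + k) S F
  obtain ⟨U', b, P, κ, h1, h2, h3, h4⟩ := abstractUp hG hder
  refine ⟨b, P, κ, fun p hp => ?_, h3, h1.last_bound hG hb', fun z => ?_⟩
  · obtain ⟨-, h6, h7, h8⟩ := h2 p hp
    exact ⟨h6, lt_of_le_of_lt h7 hb', h8⟩
  · obtain ⟨U'', n', hd⟩ := h4 z
    obtain ⟨u, hu, hr⟩ := cfWG_sound hd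
    have h6 := hr.word.2
    rw [List.nil_append] at h6
    rw [← h6]
    exact (ContextFreeGrammar.mem_language_iff g _).2 hu.derives

theorem parikh_up {T Λ : Type} [Finite Λ] (g : ContextFreeGrammar.{0} T) (X : Λ → List T)
    (hX : ∀ l, X l ≠ []) :
    ∃ C : ℕ, ∀ k : ℕ, ∃ C' : ℕ, ∀ (l : ℕ) (ℓ : ℕ → Λ) (e : Vec), (∀ i, l + k ≤ i → e i = 0) →
      bword X ℓ (l + k) e ∈ g.language →
      ∃ (b : Vec) (P : Finset Link) (κ : Link → ℕ),
        (∀ p ∈ P, p.1 ≤ p.2.1 ∧ p.2.1 < l + k ∧ p.2.2.1 + p.2.2.2 ≤ C) ∧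
        e = lin b P κ ∧ lastdeg l b ≤ C' * (l + 1) ∧
        ∀ z : Link → ℕ, bword X ℓ (l + k) (e + ∑ p ∈ P, z p • Link.vec p : Vec) ∈ g.language := by
  obtain ⟨F, hF⟩ := exists_forms g
  have hS : ∀ l s, s <:+ X l → s ∈ (finite_suffix38 X).toFinset := fun l s h =>
    (finite_suffix38 X).mem_toFinset.2 ⟨l, h⟩
  set S := (finite_suffix38 X).toFinset
  set K := S.card * F.card * S.card with hK
  refine ⟨K * 2 ^ K, fun k => ⟨(1 + k * K) * 2 ^ (k * k * K), fun l ℓ e he hw => ?_⟩⟩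
  rcases Nat.eq_zero_or_pos (l + k) with hM | hM
  · have h0 : e = 0 := by
      ext i
      exact he i (by omega)
    subst h0
    refine ⟨0, ∅, 0, by simp, by simp [lin], by simp, fun z => ?_⟩
    simpa using hw
  · obtain ⟨b, P, κ, h1, h2, h3, h4⟩ := parikh_pos38 g X hX S hS F hF l k hM ℓ e he hw
    refine ⟨b, P, κ, h1, h2, h3.trans ?_, h4⟩
    have h5 : 1 + l * k * K ≤ (1 + k * K) * (l + 1) := by nlinarith [Nat.zero_le (k * K), Nat.zero_le l]
    calc (1 + l * k * K) * 2 ^ (k * k * K) ≤ ((1 + k * K) * (l + 1)) * 2 ^ (k * k * K) :=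
          Nat.mul_le_mul_right _ h5
      _ = (1 + k * K) * 2 ^ (k * k * K) * (l + 1) := by ring

end Pool.Helper49.WR
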