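import Mathlib

/-!
# UA-D: a positive rational functional on finitely many positive reals

Let `E` be the `ℚ`-span of `Z` in `ℝ`, a finite-dimensional `ℚ`-vector space, with a basis
`e_1, …, e_d` (real numbers).  Every `z ∈ Z` is `∑ c_{z,i} e_i` with `c_{z,i} ∈ ℚ`.  The function
`q ↦ ∑ c_{z,i} q_i` on `ℝ^d` is continuous and positive at `q = (e_1, …, e_d)`, so it is positive
at all `q` near this point, for all `z ∈ Z`; there is a rational point `q` there
(`Rat.denseRange_cast`, `DenseRange.piMap`-like, or choose rational `q_i` with `|q_i - e_i| < ε`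
where `ε ∑_i |c_{z,i}| < z` for all `z`).  Let `π : E → ℚ` be linear with `π e_i = q_i`
(`Basis.constr`), and extend it to `ℝ` (`LinearMap.exists_extend`).
-/

set_option autoImplicit false

namespace Pool.Helper49.WR

theorem exists_pos_functional (Z : Finset ℝ) (hZ : ∀ z ∈ Z, 0 < z) :
    ∃ π : ℝ →ₗ[ℚ] ℚ, ∀ z ∈ Z, 0 < π z := by
  classical
  set E : Submodule ℚ ℝ := Submodule.span ℚ (Z : Set ℝ) with hE
  have : FiniteDimensional ℚ E := FiniteDimensional.span_finset ℚ Z
  let b := Module.finBasis ℚ E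
  have hmem : ∀ z ∈ Z, z ∈ E := fun z hz => Submodule.subset_span hz
  -- coordinates
  let c : ℝ → Fin (Module.finrank ℚ E) → ℚ := fun z i =>
    if h : z ∈ E then b.repr ⟨z, h⟩ i else 0
  have hc : ∀ z ∈ Z, (z : ℝ) = ∑ i, (c z i : ℝ) * ((b i : E) : ℝ) := by
    intro z hz
    have h := b.sum_repr ⟨z, hmem z hz⟩
    have h2 := congrArg (fun e : E => (e : ℝ)) h
    simp only [Submodule.coe_sum, Submodule.coe_smul] at h2
    refine h2.symm.trans (Finset.sum_congr rfl fun i _ => ?_)
    simp only [c, dif_pos (hmem z hz)]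
    rw [Rat.smul_def]
  -- open neighbourhood
  let F : ℝ → (Fin (Module.finrank ℚ E) → ℝ) → ℝ := fun z q => ∑ i, (c z i : ℝ) * q i
  have hFc : ∀ z, Continuous (F z) := by
    intro z
    exact continuous_finsetSum _ fun i _ => continuous_const.mul (continuous_apply i)
  have hopen : IsOpen {q : Fin (Module.finrank ℚ E) → ℝ | ∀ z ∈ Z, 0 < F z q} := by
    have : {q : Fin (Module.finrank ℚ E) → ℝ | ∀ z ∈ Z, 0 < F z q} =
        ⋂ z ∈ Z, {q | 0 < F z q} := by
      ext q; simp
    rw [this]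
    exact isOpen_biInter_finset fun z _ => isOpen_lt continuous_const (hFc z)
  have hne : {q : Fin (Module.finrank ℚ E) → ℝ | ∀ z ∈ Z, 0 < F z q}.Nonempty := by
    refine ⟨fun i => ((b i : E) : ℝ), ?_⟩
    intro z hz
    have := hc z hz
    show 0 < ∑ i, (c z i : ℝ) * ((b i : E) : ℝ)
    rw [← this]
    exact hZ z hz
  have hdense : DenseRange (fun q : Fin (Module.finrank ℚ E) → ℚ =>
      fun i => ((q i : ℚ) : ℝ)) := by
    have := DenseRange.piMap (f := fun (_ : Fin (Module.finrank ℚ E)) (r : ℚ) => (r : ℝ))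
      (fun _ => Rat.denseRange_cast (𝕜 := ℝ))
    exact this
  obtain ⟨q, hq⟩ := hdense.exists_mem_open hopen hne
  let πE : E →ₗ[ℚ] ℚ := b.constr ℚ q
  obtain ⟨π, hπ⟩ := LinearMap.exists_extend πE
  refine ⟨π, fun z hz => ?_⟩
  have h1 : π z = πE ⟨z, hmem z hz⟩ := by
    rw [← hπ]; rfl
  have h2 : πE ⟨z, hmem z hz⟩ = ∑ i, c z i * q i := by
    simp only [πE, Module.Basis.constr_apply_fintype, c, dif_pos (hmem z hz), smul_eq_mul]
    rfl
  have h3 := hq z hz
  rw [h1, h2]
  have h4 : (0 : ℝ) < ((∑ i, c z i * q i : ℚ) : ℝ) := by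
    push_cast
    exact h3
  exact_mod_cast h4

end Pool.Helper49.WR
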