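import Pool.Agent.Helper49.UA.UpStep
import Pool.Agent.Helper49.UA.NoGap

/-!
# UA-H: free abelian subgroups of co-context-free groups are undistorted

* `undistorted_nonneg`: Let `g` generate the language of the words `u` with value `≠ 1`.
  If `k = 0` the sum is `0`.  Let `k > 0`, and suppose that for every `j` there are `w_j` and
  `m_j : Fin k → ℕ` with `value w_j = ∏ h_i^{m_j i}` and `∑ m_j i > j (|w_j| + 1)`.  Choose words
  `x_i` with value `(h i)⁻¹` (nonempty, since `h i ≠ 1`: `Pi.single i 1`).  Apply `no_gap` with
  `l_j = |w_j|`, `a_j = m_j`, `Lg j = {m | bword (lettX x) (pat hk w_j) _ (exps l_j m) ∈ g.language}`.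
  By `block_value` the value of this word is `∏ h_i^{m_j i} ∏ (h_i⁻¹)^{m i}`, which is `1` iff
  `m = m_j` (the `h i` commute, `hind` with the integer vector `m_j - m`).  `h2` is `up_step`.
* `undistorted`: for `m : Fin k → ℤ` let `σ i = 1` if `0 ≤ m i` and `-1` otherwise; apply
  `undistorted_nonneg` to `h_i^{σ i}` for all `2^k` sign vectors `σ : Fin k → Bool` and take the
  maximum of the constants.
(Products over `List.ofFn` of commuting elements: prove the needed identity
`(List.ofFn fun i => a i * b i).prod = (List.ofFn a).prod * (List.ofFn b).prod` for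
commuting families by induction on `k`, `List.ofFn_succ`.)
-/

set_option autoImplicit false

namespace Pool.Helper49.WR

private theorem ua30_ofFn_mul {G : Type} [Group G] : ∀ {k : ℕ} (a b : Fin k → G),
    (∀ i j, Commute (b i) (a j)) →
    (List.ofFn a).prod * (List.ofFn b).prod = (List.ofFn fun i => a i * b i).prod := by
  intro k
  induction k with
  | zero => intro a b _; simp
  | succ k ih =>
    intro a b hc
    rw [List.ofFn_succ, List.ofFn_succ, List.ofFn_succ, List.prod_cons, List.prod_cons, List.prod_cons,
      ← ih (fun i => a i.succ) (fun i => b i.succ) (fun i j => hc _ _)]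
    have h1 : Commute (b 0) (List.ofFn fun i : Fin k => a i.succ).prod := by
      apply Commute.list_prod_right
      intro y hy
      rw [List.mem_ofFn] at hy
      obtain ⟨i, rfl⟩ := hy
      exact hc _ _
    have h2 := h1.eq
    calc a 0 * (List.ofFn fun i : Fin k => a i.succ).prod * (b 0 * (List.ofFn fun i : Fin k => b i.succ).prod)
        = a 0 * ((List.ofFn fun i : Fin k => a i.succ).prod * b 0) * (List.ofFn fun i : Fin k => b i.succ).prod := by
          group
      _ = a 0 * (b 0 * (List.ofFn fun i : Fin k => a i.succ).prod) * (List.ofFn fun i : Fin k => b i.succ).prod := by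
          rw [h2]
      _ = _ := by group

private theorem ua30_ofFn_one {G : Type} [Group G] {k : ℕ} (a : Fin k → G) (h : ∀ i, a i = 1) :
    (List.ofFn a).prod = 1 := by
  apply List.prod_eq_one
  intro y hy
  rw [List.mem_ofFn] at hy
  obtain ⟨i, rfl⟩ := hy
  exact h i

theorem undistorted_nonneg {G : Type} [Group G] {n : ℕ} (f : Fin n → G)
    (hf : Function.Surjective (fun w : List (Fin n) => (w.map f).prod))
    (hcf : Language.IsContextFree
      (({w : List (Fin n) | (w.map f).prod ≠ 1} : Set (List (Fin n))) : Language (Fin n)))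
    {k : ℕ} (h : Fin k → G) (hc : ∀ i j, Commute (h i) (h j))
    (hind : ∀ m : Fin k → ℤ, (List.ofFn fun i => h i ^ m i).prod = 1 → m = 0) :
    ∃ C : ℕ, ∀ (m : Fin k → ℕ) (w : List (Fin n)),
      (w.map f).prod = (List.ofFn fun i => h i ^ (m i : ℤ)).prod →
      ∑ i, m i ≤ C * (w.length + 1) := by
  rcases Nat.eq_zero_or_pos k with hk0 | hk
  · subst hk0
    exact ⟨0, fun m w _ => by simp⟩
  obtain ⟨g, hg⟩ := hcf
  have hmem : ∀ u : List (Fin n), u ∈ g.language ↔ (u.map f).prod ≠ 1 := by
    intro u
    rw [hg]
    exact Iff.rfl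
  choose x hx using fun i => hf (h i)⁻¹
  have hx' : ∀ i, ((x i).map f).prod = (h i)⁻¹ := hx
  have hxne : ∀ i, x i ≠ [] := by
    intro i hi
    have h1 := hx' i
    rw [hi, List.map_nil, List.prod_nil] at h1
    have h2 : h i = 1 := by
      rw [← inv_inv (h i), ← h1, inv_one]
    have h3 := hind (Pi.single i 1) (ua30_ofFn_one _ (fun j => by
      by_cases hj : j = i
      · subst hj
        rw [h2, one_zpow]
      · rw [Pi.single_eq_of_ne hj, zpow_zero]))
    have h4 := congrFun h3 i
    rw [Pi.single_eq_same, Pi.zero_apply] at h4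
    exact one_ne_zero h4
  obtain ⟨S, C, hS⟩ := up_step hk g x hxne
  by_contra hcon
  push Not at hcon
  choose m w hval hlt using hcon
  -- the value of the block words
  have hv : ∀ (j : ℕ) (n' : Fin k → ℕ),
      ((bword (lettX x) (pat hk (w j)) ((w j).length + k) (exps (w j).length n')).map f).prod =
        (List.ofFn fun i => h i ^ ((m j i : ℤ) - (n' i : ℤ))).prod := by
    intro j n'
    rw [block_value hk f h x hx' (w j) n', hval j, ua30_ofFn_mul]
    · congr 2
      funext i
      rw [zpow_sub, inv_pow, zpow_natCast, zpow_natCast]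
    · intro i i'
      exact ((hc i i').inv_left.pow_left _).zpow_right _
  refine no_gap k S C (fun j => (w j).length) m hlt
    (fun j => {n' | bword (lettX x) (pat hk (w j)) ((w j).length + k) (exps (w j).length n') ∈ g.language})
    ?_ ?_ ?_
  · intro j n' hn'
    show bword (lettX x) (pat hk (w j)) ((w j).length + k) (exps (w j).length n') ∈ g.language
    rw [hmem, hv j n']
    intro h1
    apply hn'
    have h2 := hind _ h1
    funext i
    have h3 := congrFun h2 i
    rw [Pi.zero_apply] at h3
    omega
  · intro j n' hn'
    exact hS (w j) n' hn'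
  · intro j hj
    have h1 : bword (lettX x) (pat hk (w j)) ((w j).length + k) (exps (w j).length (m j)) ∈ g.language := hj
    rw [hmem, hv j (m j)] at h1
    apply h1
    exact ua30_ofFn_one _ (fun i => by rw [sub_self, zpow_zero])

theorem undistorted {G : Type} [Group G] {n : ℕ} (f : Fin n → G)
    (hf : Function.Surjective (fun w : List (Fin n) => (w.map f).prod))
    (hcf : Language.IsContextFree
      (({w : List (Fin n) | (w.map f).prod ≠ 1} : Set (List (Fin n))) : Language (Fin n)))
    {k : ℕ} (h : Fin k → G) (hc : ∀ i j, Commute (h i) (h j))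
    (hind : ∀ m : Fin k → ℤ, (List.ofFn fun i => h i ^ m i).prod = 1 → m = 0) :
    ∃ C : ℕ, ∀ (m : Fin k → ℤ) (w : List (Fin n)),
      (w.map f).prod = (List.ofFn fun i => h i ^ m i).prod →
      ∑ i, (m i).natAbs ≤ C * (w.length + 1) := by
  have key : ∀ σ : Fin k → Bool, ∃ C : ℕ, ∀ (m : Fin k → ℕ) (w : List (Fin n)),
      (w.map f).prod = (List.ofFn fun i => (if σ i then h i else (h i)⁻¹) ^ (m i : ℤ)).prod →
      ∑ i, m i ≤ C * (w.length + 1) := by
    intro σ
    apply undistorted_nonneg f hf hcf (fun i => if σ i then h i else (h i)⁻¹)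
    · intro i j
      show Commute (if σ i then h i else (h i)⁻¹) (if σ j then h j else (h j)⁻¹)
      by_cases h1 : σ i <;> by_cases h2 : σ j <;> simp only [h1, h2, if_true, if_false, Bool.false_eq_true]
      · exact hc i j
      · exact (hc i j).inv_right
      · exact (hc i j).inv_left
      · exact (hc i j).inv_inv
    · intro m hm
      have h1 := hind (fun i => if σ i then m i else - m i) (by
        rw [← hm]
        congr 2
        funext i
        by_cases h1 : σ i
        · simp only [h1, if_true]
        · simp only [h1, if_false, Bool.false_eq_true, inv_zpow, zpow_neg])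
      funext i
      have h2 := congrFun h1 i
      simp only [Pi.zero_apply] at h2 ⊢
      by_cases h3 : σ i
      · simpa only [h3, if_true] using h2
      · simp only [h3, if_false, Bool.false_eq_true, neg_eq_zero] at h2
        exact h2
  choose C hC using key
  refine ⟨∑ σ, C σ, ?_⟩
  intro m w hw
  set σ : Fin k → Bool := fun i => decide (0 ≤ m i) with hσ
  have h1 := hC σ (fun i => (m i).natAbs) w (by
    rw [hw]
    congr 2
    funext i
    by_cases h2 : 0 ≤ m i
    · have h3 : σ i = true := by simp only [hσ, h2, decide_true]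
      rw [h3, if_pos rfl, Int.natAbs_of_nonneg h2]
    · have h3 : σ i = false := by simp only [hσ, h2, decide_false]
      rw [h3, if_neg (by simp), Int.ofNat_natAbs_of_nonpos (by omega), zpow_neg, inv_zpow, inv_inv])
  refine h1.trans (Nat.mul_le_mul_right _ ?_)
  exact Finset.single_le_sum (fun _ _ => Nat.zero_le _) (Finset.mem_univ σ)

end Pool.Helper49.WR
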