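import Pool.Agent.Helper49.UA.ParikhUp
import Pool.Agent.Helper49.UA.BlockValue

/-!
# UA-G: from `parikh_up` to the hypothesis of `no_gap`

* `up_step` (UA-G).  From `parikh_up` to the hypothesis `h2` of `no_gap`.  Let `k` be given, `C`,
  `C'` from `parikh_up`.  Let `e = exps l m`.  Let `e = lin b P κ` be given by `parikh_up`.  Call
  `p ∈ P` good if `vec p i = 0` for all `i < l`, bad otherwise.  For a bad `p`, `κ p ≤ κ p vec p i`
  for some `i < l`, and `∑_{i<l} ∑_p κ p vec p i ≤ ∑_{i<l} e i = l`, so `∑_{bad} κ p ≤ l`.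
  Let `v_p i = vec p (l + i)`, `i < k`; `v_p ∈ S` = the finite set of vectors with all entries
  `≤ C`.  Let `P'` be the set of the `v_p`, `p` good, `κ' v = ∑_{p good, v_p = v} κ p`,
  `b' i = b (l + i) + ∑_{bad} κ p v_p i`.  Then `m = b' + ∑_{v ∈ P'} κ' v • v`,
  `∑ b' i ≤ C' (l + 1) + C l ≤ (C' + C) (l + 1)` (`lastdeg_eq_sum`).  For `z` on `P'` choose for each
  `v ∈ P'` a good `p` with `v_p = v` and use the `z` of `parikh_up` concentrated there: then
  `e + ∑ z p • vec p = exps l (m + ∑ z v • v)`.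
-/

set_option autoImplicit false

namespace Pool.Helper49.WR

private theorem exps_apply4 {k : ℕ} (l : ℕ) (m : Fin k → ℕ) (i : ℕ) :
    exps l m i = if i < l then 1 else if h : i - l < k then m ⟨i - l, h⟩ else 0 := rfl

private theorem exps_lt4 {k : ℕ} {l : ℕ} (m : Fin k → ℕ) {i : ℕ} (h : i < l) :
    exps l m i = 1 := by
  rw [exps_apply4, if_pos h]

private theorem exps_mid4 {k : ℕ} (l : ℕ) (m : Fin k → ℕ) (i : Fin k) :
    exps l m (l + i) = m i := by
  rw [exps_apply4, if_neg (by omega)]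
  have h : l + (i : ℕ) - l < k := by have := i.2; omega
  rw [dif_pos h]
  congr 1
  apply Fin.ext
  show l + (i : ℕ) - l = i
  omega

private theorem exps_ge4 {k : ℕ} {l : ℕ} (m : Fin k → ℕ) {i : ℕ} (h : l + k ≤ i) :
    exps l m i = 0 := by
  rw [exps_apply4, if_neg (by omega), dif_neg (by omega)]

private theorem lin_apply4 (b : Vec) (P : Finset Link) (κ : Link → ℕ) (i : ℕ) :
    lin b P κ i = b i + ∑ p ∈ P, κ p * Link.vec p i := by
  rw [lin, Finsupp.add_apply, Finsupp.finsetSum_apply]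
  simp

private theorem vec_eq_zero4 {p : Link} {M i : ℕ} (h1 : p.1 ≤ p.2.1) (h2 : p.2.1 < M)
    (hi : M ≤ i) : Link.vec p i = 0 := by
  rw [Link.vec, Finsupp.add_apply, Finsupp.single_eq_of_ne (by omega),
    Finsupp.single_eq_of_ne (by omega), add_zero]

private theorem vec_le4 {p : Link} {C : ℕ} (h : p.2.2.1 + p.2.2.2 ≤ C) (i : ℕ) :
    Link.vec p i ≤ C := by
  rw [Link.vec, Finsupp.add_apply]
  refine le_trans (add_le_add ?_ ?_) h
  · rw [Finsupp.single_apply]
    split_ifs <;> omega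
  · rw [Finsupp.single_apply]
    split_ifs <;> omega

private theorem vec_sum_le4 {p : Link} {C l k : ℕ} (h1 : p.1 ≤ p.2.1) (h2 : p.2.1 < l + k)
    (h : p.2.2.1 + p.2.2.2 ≤ C) : ∑ i : Fin k, Link.vec p (l + i) ≤ C := by
  rw [← lastdeg_eq_sum l k (Link.vec p) (fun i hi => vec_eq_zero4 h1 h2 hi), Link.vec, map_add,
    lastdeg_single, lastdeg_single]
  split_ifs <;> omega

theorem up_step {n k : ℕ} (hk : 0 < k) (g : ContextFreeGrammar.{0} (Fin n))
    (x : Fin k → List (Fin n)) (hx : ∀ i, x i ≠ []) :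
    ∃ (S : Finset (Fin k → ℕ)) (C : ℕ), ∀ (w : List (Fin n)) (m : Fin k → ℕ),
      bword (lettX x) (pat hk w) (w.length + k) (exps w.length m) ∈ g.language →
      ∃ (b : Fin k → ℕ) (P : Finset (Fin k → ℕ)) (κ : (Fin k → ℕ) → ℕ),
        P ⊆ S ∧ m = b + ∑ v ∈ P, κ v • v ∧ ∑ i, b i ≤ C * (w.length + 1) ∧
        ∀ z : (Fin k → ℕ) → ℕ,
          bword (lettX x) (pat hk w) (w.length + k)
            (exps w.length (m + ∑ v ∈ P, z v • v)) ∈ g.language := by
  classical
  have hX : ∀ a, lettX x a ≠ [] := by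
    rintro (t | i)
    · exact List.cons_ne_nil _ _
    · exact hx i
  obtain ⟨C, hC⟩ := parikh_up g (lettX x) hX
  obtain ⟨C', hC'⟩ := hC k
  refine ⟨Fintype.piFinset fun _ => Finset.range (C + 1), C' + C, ?_⟩
  intro w m hmem
  obtain ⟨b, P, κ, hP, he, hb, hz⟩ := hC' w.length (pat hk w) (exps w.length m)
    (fun i hi => exps_ge4 m hi) hmem
  obtain ⟨l, hl⟩ : ∃ l, l = w.length := ⟨_, rfl⟩
  rw [← hl] at hP he hb hz ⊢
  obtain ⟨vv, hvv⟩ : ∃ vv : Link → Fin k → ℕ, ∀ p i, vv p i = Link.vec p (l + i) :=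
    ⟨fun p i => Link.vec p (l + i), fun _ _ => rfl⟩
  have hei : ∀ i, exps l m i = b i + ∑ p ∈ P, κ p * Link.vec p i := by
    intro i
    conv_lhs => rw [he]
    exact lin_apply4 _ _ _ _
  -- the good and the bad links
  obtain ⟨Pg, hPg⟩ : ∃ Pg, Pg = P.filter fun p => ∀ i < l, Link.vec p i = 0 := ⟨_, rfl⟩
  obtain ⟨Pb, hPb⟩ : ∃ Pb, Pb = P.filter fun p => ¬ ∀ i < l, Link.vec p i = 0 := ⟨_, rfl⟩
  have hPgP : Pg ⊆ P := by rw [hPg]; exact Finset.filter_subset _ _
  have hPbP : Pb ⊆ P := by rw [hPb]; exact Finset.filter_subset _ _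
  have hbad : ∑ p ∈ Pb, κ p ≤ l := by
    calc ∑ p ∈ Pb, κ p ≤ ∑ p ∈ Pb, κ p * ∑ i ∈ Finset.range l, Link.vec p i := by
          refine Finset.sum_le_sum fun p hp => ?_
          rw [hPb, Finset.mem_filter] at hp
          have h1 := hp.2
          push Not at h1
          obtain ⟨i, hi, hi0⟩ := h1
          have h2 : Link.vec p i ≤ ∑ i ∈ Finset.range l, Link.vec p i :=
            Finset.single_le_sum (f := fun i => Link.vec p i) (fun _ _ => Nat.zero_le _)
              (Finset.mem_range.2 hi)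
          have h3 : 1 ≤ ∑ i ∈ Finset.range l, Link.vec p i := by omega
          calc κ p = κ p * 1 := (mul_one _).symm
            _ ≤ _ := Nat.mul_le_mul_left _ h3
      _ ≤ ∑ p ∈ P, κ p * ∑ i ∈ Finset.range l, Link.vec p i :=
          Finset.sum_le_sum_of_subset hPbP
      _ = ∑ i ∈ Finset.range l, ∑ p ∈ P, κ p * Link.vec p i := by
          rw [Finset.sum_comm]
          exact Finset.sum_congr rfl fun p _ => Finset.mul_sum _ _ _
      _ ≤ ∑ i ∈ Finset.range l, 1 := by
          refine Finset.sum_le_sum fun i hi => ?_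
          have h1 := hei i
          rw [exps_lt4 m (Finset.mem_range.1 hi)] at h1
          omega
      _ = l := by simp
  -- the data
  obtain ⟨P', hP'⟩ : ∃ P', P' = Pg.image vv := ⟨_, rfl⟩
  obtain ⟨κ', hκ'⟩ : ∃ κ' : (Fin k → ℕ) → ℕ, ∀ v, κ' v = ∑ p ∈ Pg.filter (fun p => vv p = v), κ p :=
    ⟨fun v => ∑ p ∈ Pg.filter (fun p => vv p = v), κ p, fun _ => rfl⟩
  obtain ⟨b', hb'⟩ : ∃ b' : Fin k → ℕ, ∀ i, b' i = b (l + i) + ∑ p ∈ Pb, κ p * vv p i :=
    ⟨fun i => b (l + i) + ∑ p ∈ Pb, κ p * vv p i, fun _ => rfl⟩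
  have hsec : ∀ v ∈ P', ∃ p ∈ Pg, vv p = v := by
    intro v hv
    rw [hP', Finset.mem_image] at hv
    exact hv
  obtain ⟨s, hs⟩ : ∃ s : (Fin k → ℕ) → Link, ∀ v ∈ P', s v ∈ Pg ∧ vv (s v) = v := by
    refine ⟨fun v => if hv : v ∈ P' then (hsec v hv).choose else (0, 0, 0, 0), fun v hv => ?_⟩
    simp only [dif_pos hv]
    exact (hsec v hv).choose_spec
  refine ⟨b', P', κ', ?_, ?_, ?_, ?_⟩
  · intro v hv
    obtain ⟨p, hp, rfl⟩ := hsec v hv
    rw [Fintype.mem_piFinset]
    intro i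
    rw [Finset.mem_range, hvv]
    exact Nat.lt_succ_of_le (vec_le4 (hP p (hPgP hp)).2.2 _)
  · funext i
    have h1 := hei (l + i)
    rw [exps_mid4] at h1
    have h2 : ∑ p ∈ P, κ p * Link.vec p (l + i) =
        ∑ p ∈ Pg, κ p * vv p i + ∑ p ∈ Pb, κ p * vv p i := by
      rw [hPg, hPb, Finset.sum_filter_add_sum_filter_not P (fun p => ∀ i < l, Link.vec p i = 0)
        (fun p => κ p * vv p i)]
      exact Finset.sum_congr rfl fun p _ => by rw [hvv]
    have h3 : ∑ p ∈ Pg, κ p * vv p i = ∑ v ∈ P', κ' v * v i := by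
      rw [← Finset.sum_fiberwise_of_maps_to (s := Pg) (t := P') (g := vv)
        (fun p hp => by rw [hP']; exact Finset.mem_image_of_mem _ hp)]
      refine Finset.sum_congr rfl fun v _ => ?_
      rw [hκ', Finset.sum_mul]
      refine Finset.sum_congr rfl fun p hp => ?_
      rw [(Finset.mem_filter.1 hp).2]
    rw [Pi.add_apply, Finset.sum_apply, hb']
    simp only [Pi.smul_apply, smul_eq_mul]
    rw [h1, h2, h3]
    ring
  · have hb0 : ∀ i, l + k ≤ i → b i = 0 := by
      intro i hi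
      have h1 := hei i
      rw [exps_ge4 m hi] at h1
      omega
    have h1 : ∑ i, b' i = lastdeg l b + ∑ p ∈ Pb, κ p * ∑ i : Fin k, Link.vec p (l + i) := by
      rw [lastdeg_eq_sum l k b hb0]
      simp only [hb', Finset.sum_add_distrib]
      congr 1
      rw [Finset.sum_comm]
      refine Finset.sum_congr rfl fun p _ => ?_
      rw [Finset.mul_sum]
      exact Finset.sum_congr rfl fun i _ => by rw [hvv]
    have h2 : ∑ p ∈ Pb, κ p * ∑ i : Fin k, Link.vec p (l + i) ≤ C * l := by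
      calc ∑ p ∈ Pb, κ p * ∑ i : Fin k, Link.vec p (l + i) ≤ ∑ p ∈ Pb, κ p * C := by
            refine Finset.sum_le_sum fun p hp => Nat.mul_le_mul_left _ ?_
            obtain ⟨h3, h4, h5⟩ := hP p (hPbP hp)
            exact vec_sum_le4 h3 h4 h5
        _ = (∑ p ∈ Pb, κ p) * C := by rw [Finset.sum_mul]
        _ ≤ l * C := Nat.mul_le_mul_right _ hbad
        _ = C * l := mul_comm _ _
    rw [h1]
    have h3 : (C' + C) * (l + 1) = C' * (l + 1) + C * l + C := by ring
    rw [h3]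
    omega
  · intro z
    have h1 := hz fun p => if p ∈ P'.image s then z (vv p) else 0
    have hsub : P'.image s ⊆ P := by
      intro p hp
      obtain ⟨v, hv, rfl⟩ := Finset.mem_image.1 hp
      exact hPgP (hs v hv).1
    have h2 : ∑ p ∈ P, (if p ∈ P'.image s then z (vv p) else 0) • Link.vec p =
        ∑ v ∈ P', z v • Link.vec (s v) := by
      rw [← Finset.sum_subset hsub (fun p _ hp => by rw [if_neg hp, zero_smul])]
      rw [Finset.sum_image (fun v hv v' hv' hvv' => by
        rw [← (hs v hv).2, ← (hs v' hv').2, hvv'])]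
      refine Finset.sum_congr rfl fun v hv => ?_
      rw [if_pos (Finset.mem_image_of_mem _ hv), (hs v hv).2]
    have h3 : exps l m + ∑ p ∈ P, (if p ∈ P'.image s then z (vv p) else 0) • Link.vec p =
        exps l (m + ∑ v ∈ P', z v • v) := by
      rw [h2]
      ext j
      rw [Finsupp.add_apply, Finsupp.finsetSum_apply]
      simp only [Finsupp.smul_apply, smul_eq_mul]
      by_cases hj : j < l
      · rw [exps_lt4 _ hj, exps_lt4 _ hj, Finset.sum_eq_zero, add_zero]
        intro v hv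
        have h4 := (hs v hv).1
        rw [hPg, Finset.mem_filter] at h4
        rw [h4.2 j hj, mul_zero]
      · by_cases hj' : j < l + k
        · obtain ⟨i, hi⟩ : ∃ i : Fin k, j = l + i := ⟨⟨j - l, by omega⟩, by
            show j = l + (j - l)
            omega⟩
          rw [hi, exps_mid4, exps_mid4, Pi.add_apply, Finset.sum_apply]
          congr 1
          refine Finset.sum_congr rfl fun v hv => ?_
          rw [Pi.smul_apply, smul_eq_mul, ← hvv, (hs v hv).2]
        · rw [exps_ge4 _ (by omega), exps_ge4 _ (by omega), zero_add]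
          refine Finset.sum_eq_zero fun v hv => ?_
          obtain ⟨h4, h5, -⟩ := hP _ (hPgP (hs v hv).1)
          rw [vec_eq_zero4 h4 h5 (by omega), mul_zero]
    rw [h3] at h1
    exact h1

end Pool.Helper49.WR
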